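import Pool.Agent.ATW.Stmts
import Pool.Agent.Helper38_AT3.POS
import Pool.Agent.Helper3_K9.Lbd
import Pool.Agent.Helper75_PP.Fin0
import Pool.Agent.Helper50_PP.Bid
import Pool.Agent.Helper50_PP.Ldp
import Pool.Agent.Helper50_PP.Dic
import Pool.Agent.Helper50_PP.Ffa
import Pool.Agent.Helper20_PP.Nls
import Pool.Agent.Helper20_PP.Ibr
import Pool.Agent.Helper63_PP.Smt
import Pool.Agent.Helper94_PP.Nch
import Pool.Agent.Helper96_PP.Trn
import Pool.Agent.Helper9_PP.Add
import Pool.Agent.Helper79_WRA.Tower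

/-!
# Squad ATW, row TWA: the main theorem for block idempotents, the prime 2
-/

open scoped BigOperators

noncomputable section

namespace Pool.Agent.PP.TW.H30

open Pool.Agent.Helper51_AWC Pool.Agent.Helper79_WRA Pool.Agent.PP Pool.Agent.PP.KF
open Pool.Agent.PP.K9 Pool.Agent.PP.K9.H97 Pool.Agent.PP.H75 Pool.Agent.PP.T3 Pool.Agent.PP.T2

attribute [local instance] Ideal.Quotient.field

/-- the image of a subgroup with two generators has two generators -/
theorem gen2 {G A : Type} [Group G] [Group A] (V : Subgroup G) (V' : Subgroup A)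
    (π : V →* V') (hπ : Function.Surjective π) (h : ∃ x y : G, V = Subgroup.closure {x, y}) :
    ∃ x y : A, V' = Subgroup.closure {x, y} := by
  obtain ⟨x, y, hxy⟩ := h
  have hx : x ∈ V := by
    rw [hxy]
    exact Subgroup.subset_closure (by simp)
  have hy : y ∈ V := by
    rw [hxy]
    exact Subgroup.subset_closure (by simp)
  refine ⟨(π ⟨x, hx⟩ : A), (π ⟨y, hy⟩ : A), ?_⟩
  have h1 : Subgroup.closure ({⟨x, hx⟩, ⟨y, hy⟩} : Set V) = ⊤ := by
    have h2 : (Subgroup.closure ({⟨x, hx⟩, ⟨y, hy⟩} : Set V)).map V.subtype = V := by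
      rw [MonoidHom.map_closure, Set.image_pair]
      exact hxy.symm
    rw [eq_top_iff]
    intro v _
    have h3 : (v : G) ∈ (Subgroup.closure ({⟨x, hx⟩, ⟨y, hy⟩} : Set V)).map V.subtype := by
      rw [h2]
      exact v.2
    obtain ⟨w, hw, hwv⟩ := h3
    rwa [← Subtype.ext hwv]
  have h4 : (⊤ : Subgroup V).map (V'.subtype.comp π) = V' := by
    ext z
    constructor
    · rintro ⟨v, -, rfl⟩
      exact (π v).2
    · intro hz
      obtain ⟨v, hv⟩ := hπ ⟨z, hz⟩
      exact ⟨v, Subgroup.mem_top _, by rw [MonoidHom.comp_apply, hv]; rfl⟩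
  calc V' = (⊤ : Subgroup V).map (V'.subtype.comp π) := h4.symm
    _ = (Subgroup.closure ({⟨x, hx⟩, ⟨y, hy⟩} : Set V)).map (V'.subtype.comp π) := by rw [h1]
    _ = Subgroup.closure {(π ⟨x, hx⟩ : A), (π ⟨y, hy⟩ : A)} := by
      rw [MonoidHom.map_closure, Set.image_pair]
      rfl

/-- TWA -/
theorem twa (hLW2 : Lw2Stmt) (hFST : FstStmt) (hTES : TesStmt) (hDVX : DvxStmt) : TwaStmt := by
  intro M _ hM a ha
  have hp2 : Nat.Prime 2 := Nat.prime_two
  have hF : GoodF 2 (FF M) := H50.fld 2 hp2 M hM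
  suffices hmain : ∀ n : ℕ, ∀ (G : Type) [Group G] [Finite G], Nat.card G = n →
      ∀ (e : G → FF M) (V : Subgroup G) (γ : G → FF M), Ld 2 e V γ →
      Monoid.exponent V = 2 ^ a → (∃ x y : G, V = Subgroup.closure {x, y}) →
      YY 2 ⊤ e = 0 by
    intro G _ _ e V γ h1 h2 h3
    exact hmain _ G rfl e V γ h1 h2 h3
  intro n
  induction n using Nat.strong_induction_on with
  | _ n ih =>
  intro G _ _ hn e V γ hL hexp hgen
  by_cases hO : opCore 2 G = ⊥
  swap
  · exact H96.yzr 2 (FF M) hp2 G ⊤ inferInstance (opCore_top_ne rfl hO) e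
  have hIh : Ih M 2 a (Nat.card G) V (ix V γ) := by
    intro A _ _ hA f V' γ' hL' he hπ hi
    obtain ⟨π, hπ⟩ := hπ
    exact ih (Nat.card A) (hn ▸ hA) A rfl f V' γ' hL' he (gen2 V V' π hπ hgen)
  obtain ⟨f, hf⟩ := hFST 2 M hM G e V γ hL (2 ^ (a - 1))
  have hpos : 0 < a := by omega
  have h1 := hTES 2 M hM G e V γ hL a hpos hexp _ rfl f hf hIh
  set U : Subgroup G := Uw (2 ^ (a - 1)) V with hU
  have hVX : V ≤ Subgroup.normalizer (U : Set G) := Subgroup.le_normalizer.trans hf.nle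
  have eV : V.subgroupOf (Subgroup.normalizer (U : Set G)) ≃* V :=
    Subgroup.subgroupOfEquivOfLe hVX
  have hexp' : Monoid.exponent (V.subgroupOf (Subgroup.normalizer (U : Set G))) = 2 ^ a := by
    rw [← hexp]
    exact Monoid.exponent_eq_of_mulEquiv eV
  have hgen' : ∃ x y : Subgroup.normalizer (U : Set G),
      V.subgroupOf (Subgroup.normalizer (U : Set G)) = Subgroup.closure {x, y} :=
    gen2 V _ eV.symm.toMonoidHom eV.symm.surjective hgen
  have h2 := hLW2 M hM G e V γ hL a ha hexp hgen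
  have h3 := hLW2 M hM _ _ _ _ hf.ld a ha hexp' hgen'
  obtain ⟨a1, -⟩ := H3.lbd 2 M hM G e hL.blk.1 hL.blk.2.1
  obtain ⟨b1, -⟩ := H3.lbd 2 M hM _ _ hf.ld.blk.1 hf.ld.blk.2.1
  have a2 : 1 ≤ ln e := a1
  have b2 : 1 ≤ ln (fun t : Subgroup.normalizer (U : Set G) => f t) := b1
  obtain ⟨z, hz⟩ : ∃ z : V, orderOf z = Monoid.exponent V := by
    let _ : CommGroup V := { (inferInstance : Group V) with
      mul_comm := fun x y => Subtype.ext (hL.ab x x.2 y y.2) }
    exact Monoid.exists_orderOf_eq_exponent (Monoid.ExponentExists.of_finite)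
  have hz' : orderOf (z : G) = 2 ^ a := by
    rw [← hexp, ← hz, Subgroup.orderOf_coe]
  have hV : V ≠ ⊥ := by
    intro hb
    have h5 : (z : G) = 1 := Subgroup.mem_bot.1 (hb ▸ z.2 : (z : G) ∈ (⊥ : Subgroup G))
    rw [h5, orderOf_one] at hz'
    have h6 : 1 < 2 ^ a := Nat.one_lt_pow hpos.ne' hp2.one_lt
    omega
  obtain ⟨χ, hχ, r1, -, r3⟩ := H75.block_case H20.nls H20.brm H63.smt H94.nch
    (H50.dic H20.ibn H20.nls H20.brm) H50.bid H50.chp H50.ldp H50.fld hp2 hM hO hL.blk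
    (T3.H38.pos 2 (FF M) hF G e hL.blk V hL.tp.pg hV hL.tp.gd)
  have h4 := hDVX 2 M hM G hO e V γ hL hV χ hχ r1 z z.2
  rw [hz'] at h4
  rw [h1] at r3
  have h7 : (Nat.card G : ℤ) ≠ 0 := by exact_mod_cast Nat.card_pos.ne'
  have h8 := mul_left_cancel₀ h7 r3
  have h9 : (ln e : ℤ) - ln (fun t : Subgroup.normalizer (U : Set G) => f t) = 0 := by
    rw [h8] at h4
    refine Int.eq_zero_of_abs_lt_dvd h4 ?_
    rw [abs_lt]
    push_cast
    have h2' : (ln e : ℤ) ≤ (2 : ℤ) ^ a := by exact_mod_cast h2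
    have h3' : (ln (fun t : Subgroup.normalizer (U : Set G) => f t) : ℤ) ≤ (2 : ℤ) ^ a := by
      exact_mod_cast h3
    have a2' : (1 : ℤ) ≤ (ln e : ℤ) := by exact_mod_cast a2
    have b2' : (1 : ℤ) ≤ (ln (fun t : Subgroup.normalizer (U : Set G) => f t) : ℤ) := by
      exact_mod_cast b2
    constructor <;> linarith
  rw [h1, h9, mul_zero]

end Pool.Agent.PP.TW.H30
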